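import Pool.Agent.Lib.MP_4eff47_co.Defs
import Pool.Agent.Lib.MP_4eff47_co.Final

set_option autoImplicit false

namespace Pool.Agent.Results.MP_4eff47_co.RatioLimit

open Filter Topology

/-- The ratio of consecutive numbers of forcibly biconnected degree sequences tends to 4. -/
theorem result : Tendsto (fun n : ℕ => (Pool.Agent.Lib.MP_4eff47_co.D2f n : ℝ) /
    (Pool.Agent.Lib.MP_4eff47_co.D2f (n - 1) : ℝ)) atTop (𝓝 4) :=
  Pool.Agent.Lib.MP_4eff47_co.D2f_ratio

end Pool.Agent.Results.MP_4eff47_co.RatioLimit
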